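import Mathlib

set_option autoImplicit false

namespace Pool.Agent.Results.MP_8ef15a_nt.ThreeAntipalindromic

/-- `n` is antipalindromic in base `3`: it is positive and its base-`3` digit string, read
backwards with every digit `d` replaced by `2 - d`, gives the same string back. -/
def IsAntipal (n : ℕ) : Prop :=
  0 < n ∧ (Nat.digits 3 n).reverse.map (fun d => 2 - d) = Nat.digits 3 n

/-- `N` is a sum of one, two or three base-`3` antipalindromic numbers. -/
def SumAtMostThree (N : ℕ) : Prop :=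
  IsAntipal N ∨ (∃ a b : ℕ, IsAntipal a ∧ IsAntipal b ∧ N = a + b) ∨
    (∃ a b c : ℕ, IsAntipal a ∧ IsAntipal b ∧ IsAntipal c ∧ N = a + b + c)

/-- values of antipalindromic digit strings of length `r` (leading zeros allowed) -/
def GA (r n : ℕ) : Prop :=
  ∃ l : List ℕ, l.length = r ∧ (∀ d ∈ l, d < 3) ∧ l.reverse.map (fun d => 2 - d) = l ∧
    Nat.ofDigits 3 l = n

theorem ga_zero : GA 0 0 := ⟨[], rfl, by simp, rfl, by simp⟩

theorem ga_one : GA 1 1 := ⟨[1], rfl, by simp, rfl, by simp⟩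

theorem string_step {l : List ℕ} {x : ℕ} (hx : x ≤ 2)
    (h : l.reverse.map (fun d => 2 - d) = l) :
    (x :: (l ++ [2 - x])).reverse.map (fun d => 2 - d) = x :: (l ++ [2 - x]) := by
  rw [List.reverse_cons, List.reverse_append, List.map_append, List.map_append, h]
  have h2 : 2 - (2 - x) = x := by omega
  simp [h2]

theorem value_step (l : List ℕ) (x : ℕ) :
    Nat.ofDigits 3 (x :: (l ++ [2 - x])) =
      x + 3 * Nat.ofDigits 3 l + 3 ^ (l.length + 1) * (2 - x) := by
  rw [Nat.ofDigits_cons, Nat.ofDigits_append, Nat.ofDigits_singleton, pow_succ]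
  ring

theorem ga_step {r a x : ℕ} (h : GA r a) (hx : x ≤ 2) :
    GA (r + 2) (x + 3 * a + 3 ^ (r + 1) * (2 - x)) := by
  obtain ⟨l, h1, h2, h3, h4⟩ := h
  refine ⟨x :: (l ++ [2 - x]), by simp [h1], ?_, string_step hx h3, ?_⟩
  · intro d hd
    rcases List.mem_cons.1 hd with h | h
    · omega
    · rcases List.mem_append.1 h with h | h
      · exact h2 d h
      · rw [List.mem_singleton] at h; omega
  · rw [value_step, h1, h4]

theorem antipal_step {r a x : ℕ} (h : GA r a) (hx : x ≤ 1) :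
    IsAntipal (x + 3 * a + 3 ^ (r + 1) * (2 - x)) := by
  obtain ⟨l, h1, h2, h3, h4⟩ := h
  have hd : Nat.digits 3 (x + 3 * a + 3 ^ (r + 1) * (2 - x)) = x :: (l ++ [2 - x]) := by
    have hv := value_step l x
    rw [h1, h4] at hv
    rw [← hv]
    apply Nat.digits_ofDigits 3 (by norm_num)
    · intro d hd
      rcases List.mem_cons.1 hd with h | h
      · omega
      · rcases List.mem_append.1 h with h | h
        · exact h2 d h
        · rw [List.mem_singleton] at h; omega
    · intro hne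
      have : (x :: (l ++ [2 - x])).getLast hne = 2 - x := by simp
      rw [this]
      omega
  refine ⟨?_, ?_⟩
  · have : 0 < 3 ^ (r + 1) * (2 - x) := Nat.mul_pos (by positivity) (by omega)
    omega
  · rw [hd]; exact string_step (by omega) h3

theorem antipal_one : IsAntipal 1 := by
  refine ⟨by norm_num, ?_⟩
  simp

/-- sums of antipalindromic strings of lengths `s + e1`, `s + e2` and `s` -/
def Sum3 (e1 e2 s M : ℕ) : Prop :=
  ∃ a b c : ℕ, GA (s + e1) a ∧ GA (s + e2) b ∧ GA s c ∧ a + b + c = M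

theorem sum3_step {e1 e2 s M x y z : ℕ} (h : Sum3 e1 e2 s M) (hx : x ≤ 2) (hy : y ≤ 2)
    (hz : z ≤ 2) :
    Sum3 e1 e2 (s + 2) (x + y + z + 3 * M + 3 ^ (s + e1 + 1) * (2 - x) +
      3 ^ (s + e2 + 1) * (2 - y) + 3 ^ (s + 1) * (2 - z)) := by
  obtain ⟨a, b, c, ha, hb, hc, hM⟩ := h
  have h1 := ga_step ha hx
  have h2 := ga_step hb hy
  have h3 := ga_step hc hz
  have e1' : s + 2 + e1 = s + e1 + 2 := by omega
  have e2' : s + 2 + e2 = s + e2 + 2 := by omega
  refine ⟨_, _, _, by rw [e1']; exact h1, by rw [e2']; exact h2, h3, ?_⟩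
  rw [← hM]
  ring

theorem top_step {e1 e2 s M x y z : ℕ} (h : Sum3 e1 e2 s M) (hx : x ≤ 1) (hy : y ≤ 1)
    (hz : z ≤ 1) :
    SumAtMostThree (x + y + z + 3 * M + 3 ^ (s + e1 + 1) * (2 - x) +
      3 ^ (s + e2 + 1) * (2 - y) + 3 ^ (s + 1) * (2 - z)) := by
  obtain ⟨a, b, c, ha, hb, hc, hM⟩ := h
  refine Or.inr (Or.inr ⟨_, _, _, antipal_step ha hx, antipal_step hb hy, antipal_step hc hz, ?_⟩)
  rw [← hM]
  ring

/-! ### Bit masks -/

/-- union of three shifts -/
def tri (w0 w1 w2 m : ℕ) : ℕ := (m <<< w0) ||| ((m <<< w1) ||| (m <<< w2))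

/-- the mask of `m + 3 ^ j * GA r` -/
def addGA : ℕ → ℕ → ℕ → ℕ
  | _, 0, m => m
  | j, 1, m => m <<< (3 ^ j)
  | j, r + 2, m =>
    addGA (j + 1) r (tri (2 * 3 ^ (j + r + 1)) (3 ^ j + 3 ^ (j + r + 1)) (2 * 3 ^ j) m)

theorem shift_sound {m w t : ℕ} (h : (m <<< w).testBit t = true) :
    w ≤ t ∧ m.testBit (t - w) = true := by
  rw [Nat.testBit_shiftLeft, Bool.and_eq_true] at h
  exact ⟨by simpa using h.1, h.2⟩

theorem addGA_sound : ∀ (r j m t : ℕ), (addGA j r m).testBit t = true →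
    ∃ a, GA r a ∧ 3 ^ j * a ≤ t ∧ m.testBit (t - 3 ^ j * a) = true
  | 0, j, m, t, h => ⟨0, ga_zero, by simp, by simpa [addGA] using h⟩
  | 1, j, m, t, h => by
    rw [addGA] at h
    have := shift_sound h
    exact ⟨1, ga_one, by simpa using this.1, by simpa using this.2⟩
  | r + 2, j, m, t, h => by
    rw [addGA] at h
    obtain ⟨a, ha, h1, h2⟩ := addGA_sound r (j + 1) _ t h
    rw [tri, Nat.testBit_or, Nat.testBit_or, Bool.or_eq_true, Bool.or_eq_true] at h2
    have key : ∃ x ≤ 2, x * 3 ^ j + (2 - x) * 3 ^ (j + r + 1) ≤ t - 3 ^ (j + 1) * a ∧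
        m.testBit (t - 3 ^ (j + 1) * a - (x * 3 ^ j + (2 - x) * 3 ^ (j + r + 1))) = true := by
      rcases h2 with h2 | h2 | h2
      · exact ⟨0, by norm_num, by simpa using (shift_sound h2).1, by simpa using (shift_sound h2).2⟩
      · exact ⟨1, by norm_num, by simpa using (shift_sound h2).1, by simpa using (shift_sound h2).2⟩
      · exact ⟨2, by norm_num, by simpa using (shift_sound h2).1, by simpa using (shift_sound h2).2⟩
    obtain ⟨x, hx, h3, h4⟩ := key
    have e : 3 ^ j * (x + 3 * a + 3 ^ (r + 1) * (2 - x)) =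
        3 ^ (j + 1) * a + (x * 3 ^ j + (2 - x) * 3 ^ (j + r + 1)) := by
      have e1 : 3 ^ (j + r + 1) = 3 ^ j * 3 ^ (r + 1) := by rw [← pow_add]; rfl
      rw [e1, pow_succ 3 j]; ring
    refine ⟨_, ga_step ha hx, ?_, ?_⟩
    · rw [e]; omega
    · rw [e, ← Nat.sub_sub]; exact h4

/-- the mask of the sums of three strings -/
def mask3 (e1 e2 s : ℕ) : ℕ := addGA 0 (s + e1) (addGA 0 (s + e2) (addGA 0 s 1))

theorem testBit_one_iff {t : ℕ} (h : Nat.testBit 1 t = true) : t = 0 := by
  by_contra hne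
  obtain ⟨u, rfl⟩ : ∃ u, t = u + 1 := ⟨t - 1, by omega⟩
  rw [Nat.testBit_succ] at h
  simp at h

theorem mask3_sound {e1 e2 s t : ℕ} (h : (mask3 e1 e2 s).testBit t = true) : Sum3 e1 e2 s t := by
  unfold mask3 at h
  obtain ⟨a, ha, h1, h2⟩ := addGA_sound _ _ _ _ h
  obtain ⟨b, hb, h3, h4⟩ := addGA_sound _ _ _ _ h2
  obtain ⟨c, hc, h5, h6⟩ := addGA_sound _ _ _ _ h4
  have h7 := testBit_one_iff h6
  simp only [pow_zero, one_mul] at h1 h3 h5 h7
  exact ⟨a, b, c, ha, hb, hc, by omega⟩

/-- the number with `n` binary digits `1` in the even positions `0, 2, …` -/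
def pat (n : ℕ) : ℕ := (4 ^ n - 1) / 3

theorem pat_succ (n : ℕ) : pat (n + 1) = 4 * pat n + 1 := by
  have h : ∀ n : ℕ, 3 * pat n + 1 = 4 ^ n := by
    intro n
    unfold pat
    have h1 : 3 ∣ 4 ^ n - 1 := by
      have := Nat.sub_dvd_pow_sub_pow 4 1 n
      simpa using this
    have h2 : 1 ≤ 4 ^ n := Nat.one_le_pow _ _ (by norm_num)
    have h3 := Nat.mul_div_cancel' h1
    omega
  have h1 := h n
  have h2 := h (n + 1)
  rw [pow_succ] at h2
  omega

theorem pat_testBit : ∀ (n t : ℕ), t < n → (pat n).testBit (2 * t) = true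
  | 0, t, h => absurd h (Nat.not_lt_zero t)
  | n + 1, 0, _ => by
    rw [pat_succ, mul_zero, Nat.testBit_zero]
    simp only [decide_eq_true_eq]
    omega
  | n + 1, t + 1, h => by
    rw [pat_succ]
    have e : 2 * (t + 1) = 2 * t + 1 + 1 := by ring
    rw [e, Nat.testBit_succ, Nat.testBit_succ]
    have e2 : (4 * pat n + 1) / 2 / 2 = pat n := by omega
    rw [e2]
    exact pat_testBit n t (by omega)

theorem base {e1 e2 s lo n : ℕ} (h : (mask3 e1 e2 s >>> lo) &&& pat n = pat n) (M : ℕ)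
    (h1 : lo ≤ M) (h2 : M < lo + 2 * n) (h3 : M % 2 = lo % 2) : Sum3 e1 e2 s M := by
  obtain ⟨t, ht⟩ : ∃ t, M = lo + 2 * t := ⟨(M - lo) / 2, by omega⟩
  subst ht
  have h4 := pat_testBit n t (by omega)
  rw [← h, Nat.testBit_and, Bool.and_eq_true, Nat.testBit_shiftRight] at h4
  exact mask3_sound h4.1

/-! ### The induction -/

/-- the statement proved by induction on `k` (in steps of two) -/
def Q (e1 e2 s0 A B k : ℕ) : Prop :=
  ∀ M : ℕ, M % 2 = (s0 + k + e1 + e2) % 2 → A * 3 ^ k ≤ M → M ≤ B * 3 ^ k →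
    Sum3 e1 e2 (s0 + k) M

theorem step_gen {e1 e2 s0 A B k C1 C2 C3 : ℕ} (hC1 : 3 ^ (s0 + e1 + 1) = C1)
    (hC2 : 3 ^ (s0 + e2 + 1) = C2) (hC3 : 3 ^ (s0 + 1) = C3) (h : Q e1 e2 s0 A B k)
    {M T : ℕ} (hT : T = 3 ^ k) (x y z M' : ℕ) (hx : x ≤ 2) (hy : y ≤ 2) (hz : z ≤ 2)
    (hM : M = x + y + z + 3 * M' + C1 * T * (2 - x) + C2 * T * (2 - y) + C3 * T * (2 - z))
    (hp : M' % 2 = (s0 + k + e1 + e2) % 2) (h1 : A * T ≤ M') (h2 : M' ≤ B * T) :
    Sum3 e1 e2 (s0 + (k + 2)) M := by
  subst hT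
  have h3 := sum3_step (h M' hp h1 h2) hx hy hz
  have a1 : 3 ^ (s0 + k + e1 + 1) = C1 * 3 ^ k := by rw [← hC1, ← pow_add]; congr 1; omega
  have a2 : 3 ^ (s0 + k + e2 + 1) = C2 * 3 ^ k := by rw [← hC2, ← pow_add]; congr 1; omega
  have a3 : 3 ^ (s0 + k + 1) = C3 * 3 ^ k := by rw [← hC3, ← pow_add]; congr 1; omega
  rw [a1, a2, a3] at h3
  have e : s0 + (k + 2) = s0 + k + 2 := by omega
  rw [e, hM]
  exact h3

theorem top_gen {e1 e2 s0 A B k C1 C2 C3 : ℕ} (hC1 : 3 ^ (s0 + e1 + 1) = C1)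
    (hC2 : 3 ^ (s0 + e2 + 1) = C2) (hC3 : 3 ^ (s0 + 1) = C3) (h : Q e1 e2 s0 A B k)
    {M T : ℕ} (hT : T = 3 ^ k) (x y z M' : ℕ) (hx : x ≤ 1) (hy : y ≤ 1) (hz : z ≤ 1)
    (hM : M = x + y + z + 3 * M' + C1 * T * (2 - x) + C2 * T * (2 - y) + C3 * T * (2 - z))
    (hp : M' % 2 = (s0 + k + e1 + e2) % 2) (h1 : A * T ≤ M') (h2 : M' ≤ B * T) :
    SumAtMostThree M := by
  subst hT
  have h3 := top_step (h M' hp h1 h2) hx hy hz
  have a1 : 3 ^ (s0 + k + e1 + 1) = C1 * 3 ^ k := by rw [← hC1, ← pow_add]; congr 1; omega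
  have a2 : 3 ^ (s0 + k + e2 + 1) = C2 * 3 ^ k := by rw [← hC2, ← pow_add]; congr 1; omega
  have a3 : 3 ^ (s0 + k + 1) = C3 * 3 ^ k := by rw [← hC3, ← pow_add]; congr 1; omega
  rw [a1, a2, a3] at h3
  rw [hM]
  exact h3

theorem pow_odd (k : ℕ) : 3 ^ k % 2 = 1 := by
  rw [Nat.pow_mod]; simp

theorem two_step {P : ℕ → Prop} (h0 : P 0) (h1 : P 1) (hs : ∀ k, P k → P (k + 2)) :
    ∀ k, P k
  | 0 => h0
  | 1 => h1
  | k + 2 => hs k (two_step h0 h1 hs k)

theorem T012_mask0 : (mask3 2 1 10 >>> 59701) &&& pat 324100 = pat 324100 := by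
  decide +kernel

theorem T012_base0 : Q 2 1 10 59700 707900 0 := by
  intro M hp h1 h2
  rw [show (3 : ℕ) ^ 0 = 1 by norm_num] at h1 h2
  have h3 : M % 2 = 59701 % 2 := by omega
  exact base T012_mask0 M (by omega) (by omega) h3

theorem T012_mask1 : (mask3 2 1 11 >>> 179100) &&& pat 972301 = pat 972301 := by
  decide +kernel

theorem T012_base1 : Q 2 1 10 59700 707900 1 := by
  intro M hp h1 h2
  rw [show (3 : ℕ) ^ 1 = 3 by norm_num] at h1 h2
  have h3 : M % 2 = 179100 % 2 := by omega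
  exact base T012_mask1 M (by omega) (by omega) h3

theorem T012_step (k : ℕ) (h : Q 2 1 10 59700 707900 k) : Q 2 1 10 59700 707900 (k + 2) := by
  intro M hp h1 h2
  obtain ⟨T, hT⟩ : ∃ T, T = 3 ^ k := ⟨_, rfl⟩
  have hT1 : 1 ≤ T := hT ▸ Nat.one_le_pow _ _ (by norm_num)
  have hT2 : T % 2 = 1 := hT ▸ pow_odd k
  rw [show 3 ^ (k + 2) = 9 * T by rw [hT, pow_add]; ring] at h1 h2
  have c1 : 3 ^ (10 + 2 + 1) = 1594323 := by norm_num
  have c2 : 3 ^ (10 + 1 + 1) = 531441 := by norm_num
  have c3 : 3 ^ (10 + 1) = 177147 := by norm_num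
  have hr : M % 3 = 0 ∨ M % 3 = 1 ∨ M % 3 = 2 := by omega
  rcases hr with hr | hr | hr
  · have hd : (179100 * T + 6 ≤ M ∧ M ≤ 2123700 * T + 6) ∨
        (1419129 * T + 3 ≤ M ∧ M ≤ 3363729 * T + 3) ∨
        (2836305 * T + 3 ≤ M ∧ M ≤ 4780905 * T + 3) ∨
        (3899187 * T + 3 ≤ M ∧ M ≤ 5843787 * T + 3) ∨
        (4784922 * T + 0 ≤ M ∧ M ≤ 6729522 * T + 0) := by omega
    rcases hd with hd | hd | hd | hd | hd
    · exact step_gen c1 c2 c3 h hT 2 2 2 ((M - (0 * T + 6)) / 3) (by norm_num)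
        (by norm_num) (by norm_num) (by omega) (by omega) (by omega) (by omega)
    · exact step_gen c1 c2 c3 h hT 2 0 1 ((M - (1240029 * T + 3)) / 3) (by norm_num)
        (by norm_num) (by norm_num) (by omega) (by omega) (by omega) (by omega)
    · exact step_gen c1 c2 c3 h hT 1 0 2 ((M - (2657205 * T + 3)) / 3) (by norm_num)
        (by norm_num) (by norm_num) (by omega) (by omega) (by omega) (by omega)
    · exact step_gen c1 c2 c3 h hT 0 1 2 ((M - (3720087 * T + 3)) / 3) (by norm_num)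
        (by norm_num) (by norm_num) (by omega) (by omega) (by omega) (by omega)
    · exact step_gen c1 c2 c3 h hT 0 0 0 ((M - (4605822 * T + 0)) / 3) (by norm_num)
        (by norm_num) (by norm_num) (by omega) (by omega) (by omega) (by omega)
  · have hd : (533394 * T + 4 ≤ M ∧ M ≤ 2477994 * T + 4) ∨
        (2304864 * T + 4 ≤ M ∧ M ≤ 4249464 * T + 4) ∨
        (3367746 * T + 4 ≤ M ∧ M ≤ 5312346 * T + 4) ∨
        (4607775 * T + 1 ≤ M ∧ M ≤ 6552375 * T + 1) := by omega
    rcases hd with hd | hd | hd | hd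
    · exact step_gen c1 c2 c3 h hT 2 2 0 ((M - (354294 * T + 4)) / 3) (by norm_num)
        (by norm_num) (by norm_num) (by omega) (by omega) (by omega) (by omega)
    · exact step_gen c1 c2 c3 h hT 1 1 2 ((M - (2125764 * T + 4)) / 3) (by norm_num)
        (by norm_num) (by norm_num) (by omega) (by omega) (by omega) (by omega)
    · exact step_gen c1 c2 c3 h hT 0 2 2 ((M - (3188646 * T + 4)) / 3) (by norm_num)
        (by norm_num) (by norm_num) (by omega) (by omega) (by omega) (by omega)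
    · exact step_gen c1 c2 c3 h hT 0 0 1 ((M - (4428675 * T + 1)) / 3) (by norm_num)
        (by norm_num) (by norm_num) (by omega) (by omega) (by omega) (by omega)
  · have hd : (356247 * T + 5 ≤ M ∧ M ≤ 2300847 * T + 5) ∨
        (1773423 * T + 5 ≤ M ∧ M ≤ 3718023 * T + 5) ∨
        (3013452 * T + 2 ≤ M ∧ M ≤ 4958052 * T + 2) ∨
        (4430628 * T + 2 ≤ M ∧ M ≤ 6375228 * T + 2) := by omega
    rcases hd with hd | hd | hd | hd
    · exact step_gen c1 c2 c3 h hT 2 2 1 ((M - (177147 * T + 5)) / 3) (by norm_num)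
        (by norm_num) (by norm_num) (by omega) (by omega) (by omega) (by omega)
    · exact step_gen c1 c2 c3 h hT 1 2 2 ((M - (1594323 * T + 5)) / 3) (by norm_num)
        (by norm_num) (by norm_num) (by omega) (by omega) (by omega) (by omega)
    · exact step_gen c1 c2 c3 h hT 1 0 1 ((M - (2834352 * T + 2)) / 3) (by norm_num)
        (by norm_num) (by norm_num) (by omega) (by omega) (by omega) (by omega)
    · exact step_gen c1 c2 c3 h hT 0 0 2 ((M - (4251528 * T + 2)) / 3) (by norm_num)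
        (by norm_num) (by norm_num) (by omega) (by omega) (by omega) (by omega)

theorem T012 : ∀ k, Q 2 1 10 59700 707900 k := two_step T012_base0 T012_base1 T012_step

theorem T013_mask0 : (mask3 3 2 9 >>> 24400) &&& pat 339701 = pat 339701 := by
  decide +kernel

theorem T013_base0 : Q 3 2 9 24400 703800 0 := by
  intro M hp h1 h2
  rw [show (3 : ℕ) ^ 0 = 1 by norm_num] at h1 h2
  have h3 : M % 2 = 24400 % 2 := by omega
  exact base T013_mask0 M (by omega) (by omega) h3

theorem T013_mask1 : (mask3 3 2 10 >>> 73201) &&& pat 1019100 = pat 1019100 := by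
  decide +kernel

theorem T013_base1 : Q 3 2 9 24400 703800 1 := by
  intro M hp h1 h2
  rw [show (3 : ℕ) ^ 1 = 3 by norm_num] at h1 h2
  have h3 : M % 2 = 73201 % 2 := by omega
  exact base T013_mask1 M (by omega) (by omega) h3

theorem T013_step (k : ℕ) (h : Q 3 2 9 24400 703800 k) : Q 3 2 9 24400 703800 (k + 2) := by
  intro M hp h1 h2
  obtain ⟨T, hT⟩ : ∃ T, T = 3 ^ k := ⟨_, rfl⟩
  have hT1 : 1 ≤ T := hT ▸ Nat.one_le_pow _ _ (by norm_num)
  have hT2 : T % 2 = 1 := hT ▸ pow_odd k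
  rw [show 3 ^ (k + 2) = 9 * T by rw [hT, pow_add]; ring] at h1 h2
  have c1 : 3 ^ (9 + 3 + 1) = 1594323 := by norm_num
  have c2 : 3 ^ (9 + 2 + 1) = 531441 := by norm_num
  have c3 : 3 ^ (9 + 1) = 59049 := by norm_num
  have hr : M % 3 = 0 ∨ M % 3 = 1 ∨ M % 3 = 2 := by omega
  rcases hr with hr | hr | hr
  · have hd : (73200 * T + 6 ≤ M ∧ M ≤ 2111400 * T + 6) ∨
        (1785621 * T + 3 ≤ M ∧ M ≤ 3823821 * T + 3) ∨
        (3793287 * T + 3 ≤ M ∧ M ≤ 5831487 * T + 3) ∨
        (4442826 * T + 0 ≤ M ∧ M ≤ 6481026 * T + 0) := by omega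
    rcases hd with hd | hd | hd | hd
    · exact step_gen c1 c2 c3 h hT 2 2 2 ((M - (0 * T + 6)) / 3) (by norm_num)
        (by norm_num) (by norm_num) (by omega) (by omega) (by omega) (by omega)
    · exact step_gen c1 c2 c3 h hT 1 2 0 ((M - (1712421 * T + 3)) / 3) (by norm_num)
        (by norm_num) (by norm_num) (by omega) (by omega) (by omega) (by omega)
    · exact step_gen c1 c2 c3 h hT 0 1 2 ((M - (3720087 * T + 3)) / 3) (by norm_num)
        (by norm_num) (by norm_num) (by omega) (by omega) (by omega) (by omega)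
    · exact step_gen c1 c2 c3 h hT 0 0 0 ((M - (4369626 * T + 0)) / 3) (by norm_num)
        (by norm_num) (by norm_num) (by omega) (by omega) (by omega) (by omega)
  · have hd : (191298 * T + 4 ≤ M ∧ M ≤ 2229498 * T + 4) ∨
        (2198964 * T + 4 ≤ M ∧ M ≤ 4237164 * T + 4) ∨
        (3911385 * T + 1 ≤ M ∧ M ≤ 5949585 * T + 1) ∨
        (4383777 * T + 1 ≤ M ∧ M ≤ 6421977 * T + 1) := by omega
    rcases hd with hd | hd | hd | hd
    · exact step_gen c1 c2 c3 h hT 2 2 0 ((M - (118098 * T + 4)) / 3) (by norm_num)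
        (by norm_num) (by norm_num) (by omega) (by omega) (by omega) (by omega)
    · exact step_gen c1 c2 c3 h hT 1 1 2 ((M - (2125764 * T + 4)) / 3) (by norm_num)
        (by norm_num) (by norm_num) (by omega) (by omega) (by omega) (by omega)
    · exact step_gen c1 c2 c3 h hT 0 1 0 ((M - (3838185 * T + 1)) / 3) (by norm_num)
        (by norm_num) (by norm_num) (by omega) (by omega) (by omega) (by omega)
    · exact step_gen c1 c2 c3 h hT 0 0 1 ((M - (4310577 * T + 1)) / 3) (by norm_num)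
        (by norm_num) (by norm_num) (by omega) (by omega) (by omega) (by omega)
  · have hd : (132249 * T + 5 ≤ M ∧ M ≤ 2170449 * T + 5) ∨
        (1667523 * T + 5 ≤ M ∧ M ≤ 3705723 * T + 5) ∨
        (3379944 * T + 2 ≤ M ∧ M ≤ 5418144 * T + 2) ∨
        (4324728 * T + 2 ≤ M ∧ M ≤ 6362928 * T + 2) := by omega
    rcases hd with hd | hd | hd | hd
    · exact step_gen c1 c2 c3 h hT 2 2 1 ((M - (59049 * T + 5)) / 3) (by norm_num)
        (by norm_num) (by norm_num) (by omega) (by omega) (by omega) (by omega)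
    · exact step_gen c1 c2 c3 h hT 1 2 2 ((M - (1594323 * T + 5)) / 3) (by norm_num)
        (by norm_num) (by norm_num) (by omega) (by omega) (by omega) (by omega)
    · exact step_gen c1 c2 c3 h hT 0 2 0 ((M - (3306744 * T + 2)) / 3) (by norm_num)
        (by norm_num) (by norm_num) (by omega) (by omega) (by omega) (by omega)
    · exact step_gen c1 c2 c3 h hT 0 0 2 ((M - (4251528 * T + 2)) / 3) (by norm_num)
        (by norm_num) (by norm_num) (by omega) (by omega) (by omega) (by omega)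

theorem T013 : ∀ k, Q 3 2 9 24400 703800 k := two_step T013_base0 T013_base1 T013_step

theorem T023_mask0 : (mask3 3 1 9 >>> 20751) &&& pat 284325 = pat 284325 := by
  decide +kernel

theorem T023_base0 : Q 3 1 9 20750 589400 0 := by
  intro M hp h1 h2
  rw [show (3 : ℕ) ^ 0 = 1 by norm_num] at h1 h2
  have h3 : M % 2 = 20751 % 2 := by omega
  exact base T023_mask0 M (by omega) (by omega) h3

theorem T023_mask1 : (mask3 3 1 10 >>> 62250) &&& pat 852976 = pat 852976 := by
  decide +kernel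

theorem T023_base1 : Q 3 1 9 20750 589400 1 := by
  intro M hp h1 h2
  rw [show (3 : ℕ) ^ 1 = 3 by norm_num] at h1 h2
  have h3 : M % 2 = 62250 % 2 := by omega
  exact base T023_mask1 M (by omega) (by omega) h3

theorem T023_step (k : ℕ) (h : Q 3 1 9 20750 589400 k) : Q 3 1 9 20750 589400 (k + 2) := by
  intro M hp h1 h2
  obtain ⟨T, hT⟩ : ∃ T, T = 3 ^ k := ⟨_, rfl⟩
  have hT1 : 1 ≤ T := hT ▸ Nat.one_le_pow _ _ (by norm_num)
  have hT2 : T % 2 = 1 := hT ▸ pow_odd k
  rw [show 3 ^ (k + 2) = 9 * T by rw [hT, pow_add]; ring] at h1 h2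
  have c1 : 3 ^ (9 + 3 + 1) = 1594323 := by norm_num
  have c2 : 3 ^ (9 + 1 + 1) = 177147 := by norm_num
  have c3 : 3 ^ (9 + 1) = 59049 := by norm_num
  have hr : M % 3 = 0 ∨ M % 3 = 1 ∨ M % 3 = 2 := by omega
  rcases hr with hr | hr | hr
  · have hd : (62250 * T + 6 ≤ M ∧ M ≤ 1768200 * T + 6) ∨
        (475593 * T + 3 ≤ M ∧ M ≤ 2181543 * T + 3) ∨
        (2010867 * T + 3 ≤ M ∧ M ≤ 3716817 * T + 3) ∨
        (3428043 * T + 3 ≤ M ∧ M ≤ 5133993 * T + 3) ∨
        (3723288 * T + 0 ≤ M ∧ M ≤ 5429238 * T + 0) := by omega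
    rcases hd with hd | hd | hd | hd | hd
    · exact step_gen c1 c2 c3 h hT 2 2 2 ((M - (0 * T + 6)) / 3) (by norm_num)
        (by norm_num) (by norm_num) (by omega) (by omega) (by omega) (by omega)
    · exact step_gen c1 c2 c3 h hT 2 0 1 ((M - (413343 * T + 3)) / 3) (by norm_num)
        (by norm_num) (by norm_num) (by omega) (by omega) (by omega) (by omega)
    · exact step_gen c1 c2 c3 h hT 1 0 2 ((M - (1948617 * T + 3)) / 3) (by norm_num)
        (by norm_num) (by norm_num) (by omega) (by omega) (by omega) (by omega)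
    · exact step_gen c1 c2 c3 h hT 0 1 2 ((M - (3365793 * T + 3)) / 3) (by norm_num)
        (by norm_num) (by norm_num) (by omega) (by omega) (by omega) (by omega)
    · exact step_gen c1 c2 c3 h hT 0 0 0 ((M - (3661038 * T + 0)) / 3) (by norm_num)
        (by norm_num) (by norm_num) (by omega) (by omega) (by omega) (by omega)
  · have hd : (180348 * T + 4 ≤ M ∧ M ≤ 1886298 * T + 4) ∨
        (1833720 * T + 4 ≤ M ∧ M ≤ 3539670 * T + 4) ∨
        (3250896 * T + 4 ≤ M ∧ M ≤ 4956846 * T + 4) ∨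
        (3664239 * T + 1 ≤ M ∧ M ≤ 5370189 * T + 1) := by omega
    rcases hd with hd | hd | hd | hd
    · exact step_gen c1 c2 c3 h hT 2 2 0 ((M - (118098 * T + 4)) / 3) (by norm_num)
        (by norm_num) (by norm_num) (by omega) (by omega) (by omega) (by omega)
    · exact step_gen c1 c2 c3 h hT 1 1 2 ((M - (1771470 * T + 4)) / 3) (by norm_num)
        (by norm_num) (by norm_num) (by omega) (by omega) (by omega) (by omega)
    · exact step_gen c1 c2 c3 h hT 0 2 2 ((M - (3188646 * T + 4)) / 3) (by norm_num)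
        (by norm_num) (by norm_num) (by omega) (by omega) (by omega) (by omega)
    · exact step_gen c1 c2 c3 h hT 0 0 1 ((M - (3601989 * T + 1)) / 3) (by norm_num)
        (by norm_num) (by norm_num) (by omega) (by omega) (by omega) (by omega)
  · have hd : (121299 * T + 5 ≤ M ∧ M ≤ 1827249 * T + 5) ∨
        (1656573 * T + 5 ≤ M ∧ M ≤ 3362523 * T + 5) ∨
        (2069916 * T + 2 ≤ M ∧ M ≤ 3775866 * T + 2) ∨
        (3605190 * T + 2 ≤ M ∧ M ≤ 5311140 * T + 2) := by omega
    rcases hd with hd | hd | hd | hd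
    · exact step_gen c1 c2 c3 h hT 2 2 1 ((M - (59049 * T + 5)) / 3) (by norm_num)
        (by norm_num) (by norm_num) (by omega) (by omega) (by omega) (by omega)
    · exact step_gen c1 c2 c3 h hT 1 2 2 ((M - (1594323 * T + 5)) / 3) (by norm_num)
        (by norm_num) (by norm_num) (by omega) (by omega) (by omega) (by omega)
    · exact step_gen c1 c2 c3 h hT 1 0 1 ((M - (2007666 * T + 2)) / 3) (by norm_num)
        (by norm_num) (by norm_num) (by omega) (by omega) (by omega) (by omega)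
    · exact step_gen c1 c2 c3 h hT 0 0 2 ((M - (3542940 * T + 2)) / 3) (by norm_num)
        (by norm_num) (by norm_num) (by omega) (by omega) (by omega) (by omega)

theorem T023 : ∀ k, Q 3 1 9 20750 589400 k := two_step T023_base0 T023_base1 T023_step

theorem T035_mask0 : (mask3 5 2 7 >>> 10900) &&& pat 265751 = pat 265751 := by
  decide +kernel

theorem T035_base0 : Q 5 2 7 10900 542400 0 := by
  intro M hp h1 h2
  rw [show (3 : ℕ) ^ 0 = 1 by norm_num] at h1 h2
  have h3 : M % 2 = 10900 % 2 := by omega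
  exact base T035_mask0 M (by omega) (by omega) h3

theorem T035_mask1 : (mask3 5 2 8 >>> 32701) &&& pat 797250 = pat 797250 := by
  decide +kernel

theorem T035_base1 : Q 5 2 7 10900 542400 1 := by
  intro M hp h1 h2
  rw [show (3 : ℕ) ^ 1 = 3 by norm_num] at h1 h2
  have h3 : M % 2 = 32701 % 2 := by omega
  exact base T035_mask1 M (by omega) (by omega) h3

theorem T035_step (k : ℕ) (h : Q 5 2 7 10900 542400 k) : Q 5 2 7 10900 542400 (k + 2) := by
  intro M hp h1 h2
  obtain ⟨T, hT⟩ : ∃ T, T = 3 ^ k := ⟨_, rfl⟩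
  have hT1 : 1 ≤ T := hT ▸ Nat.one_le_pow _ _ (by norm_num)
  have hT2 : T % 2 = 1 := hT ▸ pow_odd k
  rw [show 3 ^ (k + 2) = 9 * T by rw [hT, pow_add]; ring] at h1 h2
  have c1 : 3 ^ (7 + 5 + 1) = 1594323 := by norm_num
  have c2 : 3 ^ (7 + 2 + 1) = 59049 := by norm_num
  have c3 : 3 ^ (7 + 1) = 6561 := by norm_num
  have hr : M % 3 = 0 ∨ M % 3 = 1 ∨ M % 3 = 2 := by omega
  rcases hr with hr | hr | hr
  · have hd : (32700 * T + 6 ≤ M ∧ M ≤ 1627200 * T + 6) ∨
        (157359 * T + 3 ≤ M ∧ M ≤ 1751859 * T + 3) ∨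
        (1745121 * T + 3 ≤ M ∧ M ≤ 3339621 * T + 3) ∨
        (3280395 * T + 3 ≤ M ∧ M ≤ 4874895 * T + 3) ∨
        (3352566 * T + 0 ≤ M ∧ M ≤ 4947066 * T + 0) := by omega
    rcases hd with hd | hd | hd | hd | hd
    · exact step_gen c1 c2 c3 h hT 2 2 2 ((M - (0 * T + 6)) / 3) (by norm_num)
        (by norm_num) (by norm_num) (by omega) (by omega) (by omega) (by omega)
    · exact step_gen c1 c2 c3 h hT 2 0 1 ((M - (124659 * T + 3)) / 3) (by norm_num)
        (by norm_num) (by norm_num) (by omega) (by omega) (by omega) (by omega)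
    · exact step_gen c1 c2 c3 h hT 1 0 2 ((M - (1712421 * T + 3)) / 3) (by norm_num)
        (by norm_num) (by norm_num) (by omega) (by omega) (by omega) (by omega)
    · exact step_gen c1 c2 c3 h hT 0 1 2 ((M - (3247695 * T + 3)) / 3) (by norm_num)
        (by norm_num) (by norm_num) (by omega) (by omega) (by omega) (by omega)
    · exact step_gen c1 c2 c3 h hT 0 0 0 ((M - (3319866 * T + 0)) / 3) (by norm_num)
        (by norm_num) (by norm_num) (by omega) (by omega) (by omega) (by omega)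
  · have hd : (45822 * T + 4 ≤ M ∧ M ≤ 1640322 * T + 4) ∨
        (1633584 * T + 4 ≤ M ∧ M ≤ 3228084 * T + 4) ∨
        (3221346 * T + 4 ≤ M ∧ M ≤ 4815846 * T + 4) ∨
        (3346005 * T + 1 ≤ M ∧ M ≤ 4940505 * T + 1) := by omega
    rcases hd with hd | hd | hd | hd
    · exact step_gen c1 c2 c3 h hT 2 2 0 ((M - (13122 * T + 4)) / 3) (by norm_num)
        (by norm_num) (by norm_num) (by omega) (by omega) (by omega) (by omega)
    · exact step_gen c1 c2 c3 h hT 1 2 1 ((M - (1600884 * T + 4)) / 3) (by norm_num)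
        (by norm_num) (by norm_num) (by omega) (by omega) (by omega) (by omega)
    · exact step_gen c1 c2 c3 h hT 0 2 2 ((M - (3188646 * T + 4)) / 3) (by norm_num)
        (by norm_num) (by norm_num) (by omega) (by omega) (by omega) (by omega)
    · exact step_gen c1 c2 c3 h hT 0 0 1 ((M - (3313305 * T + 1)) / 3) (by norm_num)
        (by norm_num) (by norm_num) (by omega) (by omega) (by omega) (by omega)
  · have hd : (91749 * T + 5 ≤ M ∧ M ≤ 1686249 * T + 5) ∨
        (1627023 * T + 5 ≤ M ∧ M ≤ 3221523 * T + 5) ∨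
        (1751682 * T + 2 ≤ M ∧ M ≤ 3346182 * T + 2) ∨
        (3339444 * T + 2 ≤ M ∧ M ≤ 4933944 * T + 2) := by omega
    rcases hd with hd | hd | hd | hd
    · exact step_gen c1 c2 c3 h hT 2 1 2 ((M - (59049 * T + 5)) / 3) (by norm_num)
        (by norm_num) (by norm_num) (by omega) (by omega) (by omega) (by omega)
    · exact step_gen c1 c2 c3 h hT 1 2 2 ((M - (1594323 * T + 5)) / 3) (by norm_num)
        (by norm_num) (by norm_num) (by omega) (by omega) (by omega) (by omega)
    · exact step_gen c1 c2 c3 h hT 1 0 1 ((M - (1718982 * T + 2)) / 3) (by norm_num)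
        (by norm_num) (by norm_num) (by omega) (by omega) (by omega) (by omega)
    · exact step_gen c1 c2 c3 h hT 0 0 2 ((M - (3306744 * T + 2)) / 3) (by norm_num)
        (by norm_num) (by norm_num) (by omega) (by omega) (by omega) (by omega)

theorem T035 : ∀ k, Q 5 2 7 10900 542400 k := two_step T035_base0 T035_base1 T035_step

theorem large (N : ℕ) (hN : 3 ^ 14 ≤ N) : SumAtMostThree N := by
  have hN0 : N ≠ 0 := by
    have : 0 < 3 ^ 14 := by norm_num
    omega
  obtain ⟨k, hk1, hk2⟩ : ∃ k, 3 ^ (14 + k) ≤ N ∧ N < 3 ^ (15 + k) := by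
    have h1 : 14 ≤ Nat.log 3 N := Nat.le_log_of_pow_le (by norm_num) hN
    refine ⟨Nat.log 3 N - 14, ?_, ?_⟩
    · rw [show 14 + (Nat.log 3 N - 14) = Nat.log 3 N by omega]
      exact Nat.pow_log_le_self 3 hN0
    · rw [show 15 + (Nat.log 3 N - 14) = Nat.log 3 N + 1 by omega]
      exact Nat.lt_pow_succ_log_self (by norm_num) N
  clear hN
  obtain ⟨T, hT⟩ : ∃ T, T = 3 ^ k := ⟨_, rfl⟩
  have hT' : 3 * T = 3 ^ (k + 1) := by rw [hT, pow_succ]; ring
  have hT1 : 1 ≤ T := hT ▸ Nat.one_le_pow _ _ (by norm_num)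
  have hT2 : T % 2 = 1 := hT ▸ pow_odd k
  rw [show 3 ^ (14 + k) = 4782969 * T by rw [hT, pow_add]; norm_num] at hk1
  rw [show 3 ^ (15 + k) = 14348907 * T by rw [hT, pow_add]; norm_num] at hk2
  have hr : N % 3 = 0 ∨ N % 3 = 1 ∨ N % 3 = 2 := by omega
  have hpar : N % 2 = (k + 1) % 2 ∨ N % 2 = k % 2 := by omega
  rcases hpar with hpar | hpar <;> rcases hr with hr | hr | hr
  · have hd : (3723288 * T + 0 ≤ N ∧ N ≤ 5429238 * T + 0) ∨
        (5077899 * T + 3 ≤ N ∧ N ≤ 9861399 * T + 3) ∨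
        (6774039 * T + 3 ≤ N ∧ N ≤ 12888639 * T + 3) ∨
        (10057698 * T + 0 ≤ N ∧ N ≤ 14841198 * T + 0) := by omega
    rcases hd with hd | hd | hd | hd
    · exact top_gen (C1 := 1594323) (C2 := 177147) (C3 := 59049) (by norm_num) (by norm_num)
        (by norm_num) (T023 k) hT 0 0 0 ((N - (3661038 * T + 0)) / 3)
        (by norm_num) (by norm_num) (by norm_num) (by omega) (by omega) (by omega) (by omega)
    · exact top_gen (C1 := 1594323) (C2 := 59049) (C3 := 6561) (by norm_num) (by norm_num)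
        (by norm_num) (T035 (k + 1)) hT' 1 1 1 ((N - (4979799 * T + 3)) / 3)
        (by norm_num) (by norm_num) (by norm_num) (by omega) (by omega) (by omega) (by omega)
    · exact top_gen (C1 := 1594323) (C2 := 531441) (C3 := 59049) (by norm_num) (by norm_num)
        (by norm_num) (T013 (k + 1)) hT' 1 1 1 ((N - (6554439 * T + 3)) / 3)
        (by norm_num) (by norm_num) (by norm_num) (by omega) (by omega) (by omega) (by omega)
    · exact top_gen (C1 := 1594323) (C2 := 59049) (C3 := 6561) (by norm_num) (by norm_num)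
        (by norm_num) (T035 (k + 1)) hT' 0 0 0 ((N - (9959598 * T + 0)) / 3)
        (by norm_num) (by norm_num) (by norm_num) (by omega) (by omega) (by omega) (by omega)
  · have hd : (4607775 * T + 1 ≤ N ∧ N ≤ 6552375 * T + 1) ∨
        (5274729 * T + 1 ≤ N ∧ N ≤ 10058229 * T + 1) ∨
        (10038015 * T + 1 ≤ N ∧ N ≤ 14821515 * T + 1) := by omega
    rcases hd with hd | hd | hd
    · exact top_gen (C1 := 1594323) (C2 := 531441) (C3 := 177147) (by norm_num) (by norm_num)
        (by norm_num) (T012 k) hT 0 0 1 ((N - (4428675 * T + 1)) / 3)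
        (by norm_num) (by norm_num) (by norm_num) (by omega) (by omega) (by omega) (by omega)
    · exact top_gen (C1 := 1594323) (C2 := 59049) (C3 := 6561) (by norm_num) (by norm_num)
        (by norm_num) (T035 (k + 1)) hT' 1 0 0 ((N - (5176629 * T + 1)) / 3)
        (by norm_num) (by norm_num) (by norm_num) (by omega) (by omega) (by omega) (by omega)
    · exact top_gen (C1 := 1594323) (C2 := 59049) (C3 := 6561) (by norm_num) (by norm_num)
        (by norm_num) (T035 (k + 1)) hT' 0 0 1 ((N - (9939915 * T + 1)) / 3)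
        (by norm_num) (by norm_num) (by norm_num) (by omega) (by omega) (by omega) (by omega)
  · have hd : (4076334 * T + 2 ≤ N ∧ N ≤ 6020934 * T + 2) ∨
        (5255046 * T + 2 ≤ N ∧ N ≤ 10038546 * T + 2) ∨
        (9860868 * T + 2 ≤ N ∧ N ≤ 14644368 * T + 2) := by omega
    rcases hd with hd | hd | hd
    · exact top_gen (C1 := 1594323) (C2 := 531441) (C3 := 177147) (by norm_num) (by norm_num)
        (by norm_num) (T012 k) hT 0 1 1 ((N - (3897234 * T + 2)) / 3)
        (by norm_num) (by norm_num) (by norm_num) (by omega) (by omega) (by omega) (by omega)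
    · exact top_gen (C1 := 1594323) (C2 := 59049) (C3 := 6561) (by norm_num) (by norm_num)
        (by norm_num) (T035 (k + 1)) hT' 1 0 1 ((N - (5156946 * T + 2)) / 3)
        (by norm_num) (by norm_num) (by norm_num) (by omega) (by omega) (by omega) (by omega)
    · exact top_gen (C1 := 1594323) (C2 := 59049) (C3 := 6561) (by norm_num) (by norm_num)
        (by norm_num) (T035 (k + 1)) hT' 0 1 1 ((N - (9762768 * T + 2)) / 3)
        (by norm_num) (by norm_num) (by norm_num) (by omega) (by omega) (by omega) (by omega)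
  · have hd : (4442826 * T + 0 ≤ N ∧ N ≤ 6481026 * T + 0) ∨
        (5678307 * T + 3 ≤ N ∧ N ≤ 10796157 * T + 3) ∨
        (7446033 * T + 3 ≤ N ∧ N ≤ 13279833 * T + 3) ∨
        (11169864 * T + 0 ≤ N ∧ N ≤ 16287714 * T + 0) := by omega
    rcases hd with hd | hd | hd | hd
    · exact top_gen (C1 := 1594323) (C2 := 531441) (C3 := 59049) (by norm_num) (by norm_num)
        (by norm_num) (T013 k) hT 0 0 0 ((N - (4369626 * T + 0)) / 3)
        (by norm_num) (by norm_num) (by norm_num) (by omega) (by omega) (by omega) (by omega)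
    · exact top_gen (C1 := 1594323) (C2 := 177147) (C3 := 59049) (by norm_num) (by norm_num)
        (by norm_num) (T023 (k + 1)) hT' 1 1 1 ((N - (5491557 * T + 3)) / 3)
        (by norm_num) (by norm_num) (by norm_num) (by omega) (by omega) (by omega) (by omega)
    · exact top_gen (C1 := 1594323) (C2 := 531441) (C3 := 177147) (by norm_num) (by norm_num)
        (by norm_num) (T012 (k + 1)) hT' 1 1 1 ((N - (6908733 * T + 3)) / 3)
        (by norm_num) (by norm_num) (by norm_num) (by omega) (by omega) (by omega) (by omega)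
    · exact top_gen (C1 := 1594323) (C2 := 177147) (C3 := 59049) (by norm_num) (by norm_num)
        (by norm_num) (T023 (k + 1)) hT' 0 0 0 ((N - (10983114 * T + 0)) / 3)
        (by norm_num) (by norm_num) (by norm_num) (by omega) (by omega) (by omega) (by omega)
  · have hd : (4383777 * T + 1 ≤ N ∧ N ≤ 6421977 * T + 1) ∨
        (6386895 * T + 1 ≤ N ∧ N ≤ 11504745 * T + 1) ∨
        (10992717 * T + 1 ≤ N ∧ N ≤ 16110567 * T + 1) := by omega
    rcases hd with hd | hd | hd
    · exact top_gen (C1 := 1594323) (C2 := 531441) (C3 := 59049) (by norm_num) (by norm_num)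
        (by norm_num) (T013 k) hT 0 0 1 ((N - (4310577 * T + 1)) / 3)
        (by norm_num) (by norm_num) (by norm_num) (by omega) (by omega) (by omega) (by omega)
    · exact top_gen (C1 := 1594323) (C2 := 177147) (C3 := 59049) (by norm_num) (by norm_num)
        (by norm_num) (T023 (k + 1)) hT' 1 0 0 ((N - (6200145 * T + 1)) / 3)
        (by norm_num) (by norm_num) (by norm_num) (by omega) (by omega) (by omega) (by omega)
    · exact top_gen (C1 := 1594323) (C2 := 177147) (C3 := 59049) (by norm_num) (by norm_num)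
        (by norm_num) (T023 (k + 1)) hT' 0 0 1 ((N - (10805967 * T + 1)) / 3)
        (by norm_num) (by norm_num) (by norm_num) (by omega) (by omega) (by omega) (by omega)
  · have hd : (3852336 * T + 2 ≤ N ∧ N ≤ 5890536 * T + 2) ∨
        (5855454 * T + 2 ≤ N ∧ N ≤ 10973304 * T + 2) ∨
        (10461276 * T + 2 ≤ N ∧ N ≤ 15579126 * T + 2) := by omega
    rcases hd with hd | hd | hd
    · exact top_gen (C1 := 1594323) (C2 := 531441) (C3 := 59049) (by norm_num) (by norm_num)
        (by norm_num) (T013 k) hT 0 1 1 ((N - (3779136 * T + 2)) / 3)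
        (by norm_num) (by norm_num) (by norm_num) (by omega) (by omega) (by omega) (by omega)
    · exact top_gen (C1 := 1594323) (C2 := 177147) (C3 := 59049) (by norm_num) (by norm_num)
        (by norm_num) (T023 (k + 1)) hT' 1 1 0 ((N - (5668704 * T + 2)) / 3)
        (by norm_num) (by norm_num) (by norm_num) (by omega) (by omega) (by omega) (by omega)
    · exact top_gen (C1 := 1594323) (C2 := 177147) (C3 := 59049) (by norm_num) (by norm_num)
        (by norm_num) (T023 (k + 1)) hT' 0 1 1 ((N - (10274526 * T + 2)) / 3)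
        (by norm_num) (by norm_num) (by norm_num) (by omega) (by omega) (by omega) (by omega)

/-! ### Numbers below `3 ^ 14` -/

/-- the mask of `m` plus the antipalindromic numbers with exactly `L` digits -/
def addAP : ℕ → ℕ → ℕ
  | 0, _ => 0
  | 1, m => m <<< 1
  | r + 2, m => addGA 1 r ((m <<< (2 * 3 ^ (r + 1))) ||| (m <<< (1 + 3 ^ (r + 1))))

theorem addAP_sound : ∀ (L m t : ℕ), (addAP L m).testBit t = true →
    ∃ a, IsAntipal a ∧ a ≤ t ∧ m.testBit (t - a) = true
  | 0, m, t, h => by simp [addAP] at h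
  | 1, m, t, h => by
    rw [addAP] at h
    have := shift_sound h
    exact ⟨1, antipal_one, this.1, this.2⟩
  | r + 2, m, t, h => by
    rw [addAP] at h
    obtain ⟨a, ha, h1, h2⟩ := addGA_sound _ _ _ _ h
    rw [Nat.testBit_or, Bool.or_eq_true] at h2
    have key : ∃ x ≤ 1, x + (2 - x) * 3 ^ (r + 1) ≤ t - 3 ^ 1 * a ∧
        m.testBit (t - 3 ^ 1 * a - (x + (2 - x) * 3 ^ (r + 1))) = true := by
      rcases h2 with h2 | h2
      · exact ⟨0, by norm_num, by simpa using (shift_sound h2).1, by simpa using (shift_sound h2).2⟩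
      · exact ⟨1, by norm_num, by simpa using (shift_sound h2).1, by simpa using (shift_sound h2).2⟩
    obtain ⟨x, hx, h3, h4⟩ := key
    have e : x + 3 * a + 3 ^ (r + 1) * (2 - x) = 3 ^ 1 * a + (x + (2 - x) * 3 ^ (r + 1)) := by ring
    refine ⟨_, antipal_step ha hx, ?_, ?_⟩
    · rw [e]; omega
    · rw [e, ← Nat.sub_sub]; exact h4

/-- the mask of `m` plus zero or one antipalindromic number with at most `L` digits -/
def acc (B : ℕ) : ℕ → ℕ → ℕ
  | 0, m => m
  | L + 1, m => (addAP (L + 1) m % 2 ^ B) ||| acc B L m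

/-- `N` is a sum of at most `j` antipalindromic numbers -/
def Rep : ℕ → ℕ → Prop
  | 0, N => N = 0
  | j + 1, N => Rep j N ∨ ∃ a, IsAntipal a ∧ a ≤ N ∧ Rep j (N - a)

theorem acc_sound (B j m : ℕ) (hm : ∀ t, m.testBit t = true → Rep j t) :
    ∀ (L t : ℕ), (acc B L m).testBit t = true → Rep (j + 1) t
  | 0, t, h => Or.inl (hm t h)
  | L + 1, t, h => by
    rw [acc, Nat.testBit_or, Bool.or_eq_true, Nat.testBit_mod_two_pow, Bool.and_eq_true] at h
    rcases h with h | h
    · obtain ⟨a, ha, h1, h2⟩ := addAP_sound _ _ _ h.2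
      exact Or.inr ⟨a, ha, h1, hm _ h2⟩
    · exact acc_sound B j m hm L t h

/-- the mask of the numbers below `3 ^ 14` that are sums of at most three -/
def small3 : ℕ := acc 4782969 14 (acc 4782969 14 (acc 4782969 14 1))

/-- the five exceptional numbers -/
def exc : ℕ := (1 <<< 24) ||| ((1 <<< 37) ||| ((1 <<< 49) ||| ((1 <<< 117) ||| (1 <<< 421))))

theorem small3_mask : small3 ||| exc = 2 ^ 4782969 - 1 := by
  decide +kernel

theorem rep3 {N : ℕ} (hN : 0 < N) (h : Rep 3 N) : SumAtMostThree N := by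
  have r1 : ∀ {n : ℕ}, Rep 1 n → n = 0 ∨ IsAntipal n := by
    rintro n (h | ⟨a, ha, h1, h2⟩)
    · exact Or.inl h
    · have h2' : n - a = 0 := h2
      have : n = a := by omega
      exact Or.inr (this ▸ ha)
  have r2 : ∀ {n : ℕ}, Rep 2 n → n = 0 ∨ IsAntipal n ∨
      ∃ a b, IsAntipal a ∧ IsAntipal b ∧ n = a + b := by
    rintro n (h | ⟨a, ha, h1, h2⟩)
    · rcases r1 h with h | h
      · exact Or.inl h
      · exact Or.inr (Or.inl h)
    · rcases r1 h2 with h | h
      · have : n = a := by omega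
        exact Or.inr (Or.inl (this ▸ ha))
      · exact Or.inr (Or.inr ⟨a, n - a, ha, h, by omega⟩)
  rcases h with h | ⟨a, ha, h1, h2⟩
  · rcases r2 h with h | h | h
    · omega
    · exact Or.inl h
    · exact Or.inr (Or.inl h)
  · rcases r2 h2 with h | h | ⟨b, c, hb, hc, h⟩
    · have : N = a := by omega
      exact Or.inl (this ▸ ha)
    · exact Or.inr (Or.inl ⟨a, N - a, ha, h, by omega⟩)
    · exact Or.inr (Or.inr ⟨a, b, c, ha, hb, hc, by omega⟩)

theorem small (N : ℕ) (hN : 0 < N) (hlt : N < 3 ^ 14)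
    (hne : N ∉ ({24, 37, 49, 117, 421} : Finset ℕ)) : SumAtMostThree N := by
  have h1 : (2 ^ 4782969 - 1 : ℕ).testBit N = true := by
    rw [Nat.testBit_two_pow_sub_one]
    have : (3 : ℕ) ^ 14 = 4782969 := by norm_num
    simpa using by omega
  rw [← small3_mask, Nat.testBit_or, Bool.or_eq_true] at h1
  rcases h1 with h1 | h1
  · refine rep3 hN ?_
    refine acc_sound _ 2 _ ?_ 14 N h1
    refine acc_sound _ 1 _ ?_ 14
    refine acc_sound _ 0 _ ?_ 14
    intro t ht
    exact testBit_one_iff ht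
  · exfalso
    apply hne
    have one : ∀ {w : ℕ}, (1 <<< w).testBit N = true → N = w := by
      intro w hw
      have h2 := shift_sound hw
      have h3 := testBit_one_iff h2.2
      omega
    unfold exc at h1
    rw [Nat.testBit_or, Nat.testBit_or, Nat.testBit_or, Nat.testBit_or, Bool.or_eq_true,
      Bool.or_eq_true, Bool.or_eq_true, Bool.or_eq_true] at h1
    rcases h1 with h | h | h | h | h
    all_goals (rw [one h]; decide)

/-! ### The five exceptions -/

instance : DecidablePred IsAntipal := fun n => by unfold IsAntipal; infer_instance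

/-- the antipalindromic numbers up to `421` -/
def La : List ℕ :=
  [1, 4, 6, 13, 21, 34, 40, 46, 60, 66, 72, 97, 121, 145, 177, 201, 225, 268, 286, 304, 346, 364,
    382]

theorem La_eq : (List.range 422).filter (fun n => decide (IsAntipal n)) = La := by
  decide +kernel

theorem mem_La {a : ℕ} (h : IsAntipal a) (h2 : a ≤ 421) : a ∈ La := by
  rw [← La_eq, List.mem_filter, List.mem_range]
  exact ⟨by omega, by simpa using h⟩

theorem no_sum : ∀ N ∈ ({24, 37, 49, 117, 421} : Finset ℕ), N ∉ La ∧ ∀ a ∈ La, ∀ b ∈ La,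
    N ≠ a + b ∧ ∀ c ∈ La, N ≠ a + b + c := by
  decide +kernel

theorem exception {N : ℕ} (hN : N ∈ ({24, 37, 49, 117, 421} : Finset ℕ)) :
    ¬ SumAtMostThree N := by
  have hle : N ≤ 421 := by
    simp only [Finset.mem_insert, Finset.mem_singleton] at hN
    omega
  obtain ⟨h1, h2⟩ := no_sum N hN
  rintro (h | ⟨a, b, ha, hb, h⟩ | ⟨a, b, c, ha, hb, hc, h⟩)
  · exact h1 (mem_La h hle)
  · exact (h2 a (mem_La ha (by omega)) b (mem_La hb (by omega))).1 h
  · exact (h2 a (mem_La ha (by omega)) b (mem_La hb (by omega))).2 c (mem_La hc (by omega)) h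

/-- A positive integer is a sum of at most three base-`3` antipalindromic numbers if and only if
it is none of `24, 37, 49, 117, 421`. -/
theorem result : ∀ N : ℕ, 0 < N →
    (SumAtMostThree N ↔ N ∉ ({24, 37, 49, 117, 421} : Finset ℕ)) := by
  intro N hN
  constructor
  · intro h h2
    exact exception h2 h
  · intro h
    rcases Nat.lt_or_ge N (3 ^ 14) with h1 | h1
    · exact small N hN h1 h
    · exact large N h1

end Pool.Agent.Results.MP_8ef15a_nt.ThreeAntipalindromic
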